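import Mathlib

/-!
Klein's icosahedral forms and the integral form of degree `12` attached to a solution of
`y² - x³ = D M⁵`.
-/

set_option autoImplicit false
set_option maxHeartbeats 4000000

namespace Pool.Agent.H13.IC

section alg

variable {R : Type*} [CommRing R]

/-- Klein's form of degree `12` -/
def ff (u v : R) : R := u ^ 11 * v + 11 * (u ^ 6 * v ^ 6) - u * v ^ 11

/-- its Hessian, divided by `121` -/
def HH (u v : R) : R :=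
  -(u ^ 20 + v ^ 20) + 228 * (u ^ 15 * v ^ 5 - u ^ 5 * v ^ 15) - 494 * (u ^ 10 * v ^ 10)

/-- the Jacobian of `ff` and `HH`, divided by `20` -/
def TT (u v : R) : R :=
  (u ^ 30 + v ^ 30) + 522 * (u ^ 25 * v ^ 5 - u ^ 5 * v ^ 25) -
    10005 * (u ^ 20 * v ^ 10 + u ^ 10 * v ^ 20)

def fu (u v : R) : R := 11 * (u ^ 10 * v) + 66 * (u ^ 5 * v ^ 6) - v ^ 11

def fw (u v : R) : R := u ^ 11 + 66 * (u ^ 6 * v ^ 5) - 11 * (u * v ^ 10)

theorem syz (u v : R) : TT u v ^ 2 + HH u v ^ 3 = 1728 * ff u v ^ 5 := by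
  unfold ff HH TT; ring

theorem euler (u v : R) : u * fu u v + v * fw u v = 12 * ff u v := by
  unfold ff fu fw; ring

def hh (A C : R) : R :=
  -(A ^ 4 + C ^ 4) + 228 * (A ^ 3 * C - A * C ^ 3) - 494 * (A ^ 2 * C ^ 2)

def tt (A C : R) : R :=
  (A ^ 6 + C ^ 6) + 522 * (A ^ 5 * C - A * C ^ 5) - 10005 * (A ^ 4 * C ^ 2 + A ^ 2 * C ^ 4)

/-- the covariants of the form with a translated argument -/
def PP (h t X Y : R) : R :=
  X ^ 12 + 66 * h * X ^ 10 * Y ^ 2 + 440 * t * X ^ 9 * Y ^ 3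
      - 1485 * h ^ 2 * X ^ 8 * Y ^ 4
      - 3168 * (h * t) * X ^ 7 * Y ^ 5
      - (10560 * t ^ 2 + 5940 * h ^ 3) * X ^ 6 * Y ^ 6
      + 4752 * (h ^ 2 * t) * X ^ 5 * Y ^ 7
      - (63360 * (h * t ^ 2) + 66825 * h ^ 4) * X ^ 4 * Y ^ 8
      - (140800 * t ^ 3 + 142560 * (h ^ 3 * t)) * X ^ 3 * Y ^ 9
      + (133056 * (h ^ 2 * t ^ 2) + 133650 * h ^ 5) * X ^ 2 * Y ^ 10
      + (61440 * (h * t ^ 3) + 61560 * (h ^ 4 * t)) * X * Y ^ 11
      + (102400 * t ^ 4 + 193536 * (h ^ 3 * t ^ 2) + 91125 * h ^ 6) * Y ^ 12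

theorem expand0 (A C X Y : R) :
    (X - (A ^ 2 + 66 * A * C - 11 * C ^ 2) * Y) * (X + (11 * A ^ 2 + 66 * A * C - C ^ 2) * Y) *
      (A ^ 2 * (X - (A ^ 2 + 66 * A * C - 11 * C ^ 2) * Y) ^ 10 +
        11 * (A * C) * ((X - (A ^ 2 + 66 * A * C - 11 * C ^ 2) * Y) ^ 5 *
          (X + (11 * A ^ 2 + 66 * A * C - C ^ 2) * Y) ^ 5) -
        C ^ 2 * (X + (11 * A ^ 2 + 66 * A * C - C ^ 2) * Y) ^ 10) =
    (A ^ 2 + 11 * A * C - C ^ 2) * PP (hh A C) (tt A C) X Y := by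
  unfold PP hh tt
  ring

theorem ff_scale (u v a b : R) : ff (u * a) (v * b) =
    u * v * (a * b * ((u ^ 5) ^ 2 * a ^ 10 + 11 * (u ^ 5 * v ^ 5) * (a ^ 5 * b ^ 5) -
      (v ^ 5) ^ 2 * b ^ 10)) := by
  unfold ff; ring

theorem expand (u v X Y : R) : ff (u * X - fw u v * Y) (v * X + fu u v * Y) =
    ff u v * PP (HH u v) (TT u v) X Y := by
  have e1 : u * X - fw u v * Y =
      u * (X - ((u ^ 5) ^ 2 + 66 * u ^ 5 * v ^ 5 - 11 * (v ^ 5) ^ 2) * Y) := by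
    unfold fw; ring
  have e2 : v * X + fu u v * Y =
      v * (X + (11 * (u ^ 5) ^ 2 + 66 * u ^ 5 * v ^ 5 - (v ^ 5) ^ 2) * Y) := by
    unfold fu; ring
  have e3 : HH u v = hh (u ^ 5) (v ^ 5) := by unfold HH hh; ring
  have e4 : TT u v = tt (u ^ 5) (v ^ 5) := by unfold TT tt; ring
  have e5 : ff u v = u * v * ((u ^ 5) ^ 2 + 11 * u ^ 5 * v ^ 5 - (v ^ 5) ^ 2) := by
    unfold ff; ring
  rw [e1, e2, ff_scale, expand0, e3, e4, e5]
  ring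

def c2 (w M r s : R) : R :=
  -(66 * M ^ 4 * r)

def c3 (w M r s : R) : R :=
  -(660 * w * M ^ 3 * r) + 440 * M ^ 3 * s

def c4 (w M r s : R) : R :=
  -(5940 * w ^ 2 * M ^ 2 * r) + 3960 * w * M ^ 2 * s - 1485 * M ^ 7 * r ^ 2

def c5 (w M r s : R) : R :=
  -(28512 * w ^ 3 * M * r) + 19008 * w ^ 2 * M * s - 11880 * w * M ^ 6 * r ^ 2
    + 3168 * M ^ 6 * r * s

def c6 (w M r s : R) : R :=
  -(57024 * w ^ 4 * r) + 38016 * w ^ 3 * s - 23760 * w ^ 2 * M ^ 5 * r ^ 2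
    + 22176 * w * M ^ 5 * r * s + 5940 * M ^ 10 * r ^ 3 - 10560 * M ^ 5 * s ^ 2

def c7 (w M r s : R) : R :=
  28512 * w ^ 3 * M ^ 4 * r ^ 2 + 76032 * w ^ 2 * M ^ 4 * r * s + 35640 * w * M ^ 9 * r ^ 3
    - 63360 * w * M ^ 4 * s ^ 2 + 4752 * M ^ 9 * r ^ 2 * s

def c8 (w M r s : R) : R :=
  -(213840 * w ^ 4 * M ^ 3 * r ^ 2) + 285120 * w ^ 3 * M ^ 3 * r * s
    - 178200 * w ^ 2 * M ^ 8 * r ^ 3 - 95040 * w ^ 2 * M ^ 3 * s ^ 2
    + 23760 * w * M ^ 8 * r ^ 2 * s - 66825 * M ^ 13 * r ^ 4 + 63360 * M ^ 8 * r * s ^ 2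

def c9 (w M r s : R) : R :=
  -(855360 * w ^ 5 * M ^ 2 * r ^ 2) + 1140480 * w ^ 4 * M ^ 2 * r * s
    - 807840 * w ^ 3 * M ^ 7 * r ^ 3 - 380160 * w ^ 3 * M ^ 2 * s ^ 2
    + 475200 * w ^ 2 * M ^ 7 * r ^ 2 * s - 267300 * w * M ^ 12 * r ^ 4
    + 253440 * w * M ^ 7 * r * s ^ 2 + 142560 * M ^ 12 * r ^ 3 * s - 140800 * M ^ 7 * s ^ 3

def c10 (w M r s : R) : R :=
  -(2052864 * w ^ 6 * M * r ^ 2) + 2737152 * w ^ 5 * M * r * s - 2423520 * w ^ 4 * M ^ 6 * r ^ 3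
    - 912384 * w ^ 4 * M * s ^ 2 + 1596672 * w ^ 3 * M ^ 6 * r ^ 2 * s
    - 1069200 * w ^ 2 * M ^ 11 * r ^ 4 + 646272 * w ^ 2 * M ^ 6 * r * s ^ 2
    + 427680 * w * M ^ 11 * r ^ 3 * s - 422400 * w * M ^ 6 * s ^ 3 - 133650 * M ^ 16 * r ^ 5
    + 133056 * M ^ 11 * r ^ 2 * s ^ 2

def c11 (w M r s : R) : R :=
  -(2239488 * w ^ 7 * r ^ 2) + 2985984 * w ^ 6 * r * s - 3032640 * w ^ 5 * M ^ 5 * r ^ 3
    - 995328 * w ^ 5 * s ^ 2 + 2208384 * w ^ 4 * M ^ 5 * r ^ 2 * s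
    - 1542240 * w ^ 3 * M ^ 10 * r ^ 4 + 601344 * w ^ 3 * M ^ 5 * r * s ^ 2
    + 673920 * w ^ 2 * M ^ 10 * r ^ 3 * s - 483840 * w ^ 2 * M ^ 5 * s ^ 3
    - 267300 * w * M ^ 15 * r ^ 5 + 266112 * w * M ^ 10 * r ^ 2 * s ^ 2
    + 61560 * M ^ 15 * r ^ 4 * s - 61440 * M ^ 10 * r * s ^ 3

def c12 (w M r s : R) : R :=
  419904 * w ^ 6 * M ^ 4 * r ^ 3 - 93312 * w ^ 5 * M ^ 4 * r ^ 2 * s
    + 693360 * w ^ 4 * M ^ 9 * r ^ 4 - 435456 * w ^ 4 * M ^ 4 * r * s ^ 2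
    + 1728 * w ^ 3 * M ^ 9 * r ^ 3 * s + 207360 * w ^ 3 * M ^ 4 * s ^ 3
    + 413100 * w ^ 2 * M ^ 14 * r ^ 5 - 447552 * w ^ 2 * M ^ 9 * r ^ 2 * s ^ 2
    + 61560 * w * M ^ 14 * r ^ 4 * s - 61440 * w * M ^ 9 * r * s ^ 3 + 91125 * M ^ 19 * r ^ 6
    - 193536 * M ^ 14 * r ^ 3 * s ^ 2 + 102400 * M ^ 9 * s ^ 4

/-- the integral form of degree `12` attached to `x = w² + M⁵ r`, `y = w³ + M⁵ s` -/
def FF (w M r s X Y : R) : R :=
  M * X ^ 12 + 12 * w * (X ^ 11 * Y) + c2 w M r s * (X ^ 10 * Y ^ 2) +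
    c3 w M r s * (X ^ 9 * Y ^ 3) + c4 w M r s * (X ^ 8 * Y ^ 4) + c5 w M r s * (X ^ 7 * Y ^ 5) +
    c6 w M r s * (X ^ 6 * Y ^ 6) + c7 w M r s * (X ^ 5 * Y ^ 7) + c8 w M r s * (X ^ 4 * Y ^ 8) +
    c9 w M r s * (X ^ 3 * Y ^ 9) + c10 w M r s * (X ^ 2 * Y ^ 10) + c11 w M r s * (X * Y ^ 11) +
    c12 w M r s * Y ^ 12

/-- the relation to the covariant expansion -/
theorem FF_eq (w M r s X Y h t : R) (hh : h = w ^ 2 + M ^ 5 * r) (ht : t = w ^ 3 + M ^ 5 * s) :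
    M ^ 11 * FF w M r s X Y = PP (-h) t (M * X + w * Y) Y := by
  subst hh ht
  unfold FF PP c2 c3 c4 c5 c6 c7 c8 c9 c10 c11 c12
  ring

theorem FF_hom (w M r s X Y c : R) : FF w M r s (c * X) (c * Y) = c ^ 12 * FF w M r s X Y := by
  unfold FF
  ring

theorem PP_scale (h t X Y c : R) : PP (c ^ 2 * h) (c ^ 3 * t) X Y = PP h t X (c * Y) := by
  unfold PP
  ring

theorem ff_hom (u v c : R) : ff (c * u) (c * v) = c ^ 12 * ff u v := by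
  unfold ff; ring

theorem HH_hom (u v c : R) : HH (c * u) (c * v) = c ^ 20 * HH u v := by
  unfold HH; ring

theorem TT_hom (u v c : R) : TT (c * u) (c * v) = c ^ 30 * TT u v := by
  unfold TT; ring

end alg

section fld

variable {K : Type*} [Field K]

theorem param {u v M w r s ν x y : K} (hM : M ≠ 0) (hν : ν ≠ 0) (h1 : ff u v = M)
    (h2 : HH u v = -(ν ^ 2 * x)) (h3 : TT u v = ν ^ 3 * y) (hx : x = w ^ 2 + M ^ 5 * r)
    (hy : y = w ^ 3 + M ^ 5 * s) (X Y : K) :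
    ff (u * X + (w * u - fw u v / ν) / M * Y) (v * X + (w * v + fu u v / ν) / M * Y) =
      FF w M r s X Y := by
  have hM12 : M ^ 12 ≠ 0 := pow_ne_zero _ hM
  apply mul_left_cancel₀ hM12
  rw [← ff_hom]
  have e1 : M * (u * X + (w * u - fw u v / ν) / M * Y) =
      u * (M * X + w * Y) - fw u v * (Y / ν) := by
    field_simp
    ring
  have e2 : M * (v * X + (w * v + fu u v / ν) / M * Y) =
      v * (M * X + w * Y) + fu u v * (Y / ν) := by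
    field_simp
    ring
  rw [e1, e2, expand, h1, h2, h3]
  have e3 : -(ν ^ 2 * x) = ν ^ 2 * (-x) := by ring
  rw [e3, PP_scale]
  have e4 : ν * (Y / ν) = Y := by field_simp
  rw [e4, ← FF_eq w M r s X Y x y hx hy]
  ring

/-- the form is nonsingular -/
theorem nonsing [CharZero K] {u v : K} (h1 : fu u v = 0) (h2 : fw u v = 0) : u = 0 ∧ v = 0 := by
  have e1 : v * (11 * (u ^ 5) ^ 2 + 66 * u ^ 5 * v ^ 5 - (v ^ 5) ^ 2) = 0 := by
    rw [← h1]; unfold fu; ring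
  have e2 : u * ((u ^ 5) ^ 2 + 66 * u ^ 5 * v ^ 5 - 11 * (v ^ 5) ^ 2) = 0 := by
    rw [← h2]; unfold fw; ring
  by_cases hv : v = 0
  · refine ⟨?_, hv⟩
    rw [hv] at h2
    unfold fw at h2
    have : u ^ 11 = 0 := by linear_combination h2
    exact pow_eq_zero_iff (by norm_num) |>.1 this
  · by_cases hu : u = 0
    · exfalso
      rw [hu] at h1
      unfold fu at h1
      have : v ^ 11 = 0 := by linear_combination -h1
      exact hv (pow_eq_zero_iff (by norm_num) |>.1 this)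
    · exfalso
      have e3 := (mul_eq_zero.1 e1).resolve_left hv
      have e4 := (mul_eq_zero.1 e2).resolve_left hu
      set A := u ^ 5
      set C := v ^ 5
      have hC : C ≠ 0 := pow_ne_zero _ hv
      have e5 : (10 : K) * (A ^ 2 + C ^ 2) = 0 := by linear_combination e3 - e4
      have e6 : A ^ 2 = -C ^ 2 := by
        have := (mul_eq_zero.1 e5).resolve_left (by norm_num)
        linear_combination this
      have e7 : C * (66 * A - 12 * C) = 0 := by linear_combination e3 - 11 * e6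
      have e8 := (mul_eq_zero.1 e7).resolve_left hC
      have e9 : (125 : K) * C ^ 2 = 0 := by
        linear_combination 121 * e6 - (11 * A + 2 * C) / 6 * e8
      have e10 := (mul_eq_zero.1 e9).resolve_left (by norm_num)
      exact hC (pow_eq_zero_iff (by norm_num) |>.1 e10)

theorem nonsing' [CharZero K] {p1 q1 p2 q2 : K} (hd : p1 * q2 - q1 * p2 ≠ 0) (h0 : ff p1 q1 = 0) :
    p2 * fu p1 q1 + q2 * fw p1 q1 ≠ 0 := by
  intro h1
  have h2 := euler p1 q1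
  rw [h0, mul_zero] at h2
  have e1 : (p1 * q2 - q1 * p2) * fu p1 q1 = 0 := by linear_combination q2 * h2 - q1 * h1
  have e2 : (p1 * q2 - q1 * p2) * fw p1 q1 = 0 := by linear_combination p1 * h1 - p2 * h2
  obtain ⟨h3, h4⟩ := nonsing ((mul_eq_zero.1 e1).resolve_left hd) ((mul_eq_zero.1 e2).resolve_left hd)
  apply hd
  rw [h3, h4]
  ring

end fld

end Pool.Agent.H13.IC
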