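import Mathlib
import Pool.Agent.H13.IC.Forms
import Pool.Graph.R_seed8.Y670.RD.Frm

/-!
The polynomials attached to the integral form.
-/

set_option autoImplicit false
set_option maxHeartbeats 4000000

namespace Pool.Agent.H13.IC

open Polynomial Pool.Agent.Y670.RD

noncomputable def PZ (w M r s α β γ δ : ℤ) : ℤ[X] :=
  FF (C w) (C M) (C r) (C s) (C α + C γ * X) (C β + C δ * X)

theorem FF_map {A B : Type*} [CommRing A] [CommRing B] (φ : A →+* B) (w M r s X Y : A) :
    φ (FF w M r s X Y) = FF (φ w) (φ M) (φ r) (φ s) (φ X) (φ Y) := by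
  unfold FF c2 c3 c4 c5 c6 c7 c8 c9 c10 c11 c12
  simp only [map_add, map_sub, map_mul, map_pow, map_neg, map_ofNat]

theorem ff_map {A B : Type*} [CommRing A] [CommRing B] (φ : A →+* B) (X Y : A) :
    φ (ff X Y) = ff (φ X) (φ Y) := by
  unfold ff
  simp only [map_add, map_sub, map_mul, map_pow, map_ofNat]

theorem aeval_PZ {K : Type*} [Field K] (w M r s α β γ δ : ℤ) (z : K) :
    aeval z (PZ w M r s α β γ δ) = FF (w : K) M r s (α + γ * z) (β + δ * z) := by
  unfold PZ
  have := FF_map ((aeval z : ℤ[X] →ₐ[ℤ] K) : ℤ[X] →+* K) (C w) (C M) (C r) (C s)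
    (C α + C γ * X) (C β + C δ * X)
  rw [RingHom.coe_coe] at this
  rw [this]
  simp

theorem eval_PZ (w M r s α β γ δ z : ℤ) :
    eval z (PZ w M r s α β γ δ) = FF w M r s (α + γ * z) (β + δ * z) := by
  unfold PZ
  have := FF_map (evalRingHom z) (C w) (C M) (C r) (C s)
    (C α + C γ * X) (C β + C δ * X)
  rw [coe_evalRingHom] at this
  rw [this]
  simp

theorem lin_le (a b : ℤ) (n : ℕ) : ((C a + C b * X) ^ n : ℤ[X]).natDegree ≤ n := by
  compute_degree

theorem mon_le (a b c d e : ℤ) (n m : ℕ) :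
    (C e * ((C a + C b * X) ^ n * (C c + C d * X) ^ m) : ℤ[X]).natDegree ≤ n + m :=
  (natDegree_C_mul_le _ _).trans (natDegree_mul_le.trans (add_le_add (lin_le _ _ _) (lin_le _ _ _)))

theorem lin_coeff (a b : ℤ) (n : ℕ) : ((C a + C b * X) ^ n : ℤ[X]).coeff n = b ^ n := by
  have h : (C a + C b * X : ℤ[X]).natDegree ≤ 1 := by compute_degree
  have h1 : (C a + C b * X : ℤ[X]).coeff 1 = b := by
    rw [coeff_add, coeff_C_mul, coeff_X_one, coeff_C_of_ne_zero one_ne_zero]; ring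
  have := coeff_pow_of_natDegree_le (m := n) h
  rwa [h1, mul_one] at this

theorem mon_coeff (a b c d e : ℤ) (n m : ℕ) :
    (C e * ((C a + C b * X) ^ n * (C c + C d * X) ^ m) : ℤ[X]).coeff (n + m) =
      e * (b ^ n * d ^ m) := by
  rw [coeff_C_mul, coeff_mul_add_eq_of_natDegree_le (lin_le _ _ _) (lin_le _ _ _), lin_coeff,
    lin_coeff]

/-- the form as a sum of monomials with constant coefficients -/
theorem PZ_eq (w M r s α β γ δ : ℤ) : PZ w M r s α β γ δ =
    C M * ((C α + C γ * X) ^ 12 * (C β + C δ * X) ^ 0) +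
    C (12 * w) * ((C α + C γ * X) ^ 11 * (C β + C δ * X) ^ 1) +
    C (c2 w M r s) * ((C α + C γ * X) ^ 10 * (C β + C δ * X) ^ 2) +
    C (c3 w M r s) * ((C α + C γ * X) ^ 9 * (C β + C δ * X) ^ 3) +
    C (c4 w M r s) * ((C α + C γ * X) ^ 8 * (C β + C δ * X) ^ 4) +
    C (c5 w M r s) * ((C α + C γ * X) ^ 7 * (C β + C δ * X) ^ 5) +
    C (c6 w M r s) * ((C α + C γ * X) ^ 6 * (C β + C δ * X) ^ 6) +
    C (c7 w M r s) * ((C α + C γ * X) ^ 5 * (C β + C δ * X) ^ 7) +
    C (c8 w M r s) * ((C α + C γ * X) ^ 4 * (C β + C δ * X) ^ 8) +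
    C (c9 w M r s) * ((C α + C γ * X) ^ 3 * (C β + C δ * X) ^ 9) +
    C (c10 w M r s) * ((C α + C γ * X) ^ 2 * (C β + C δ * X) ^ 10) +
    C (c11 w M r s) * ((C α + C γ * X) ^ 1 * (C β + C δ * X) ^ 11) +
    C (c12 w M r s) * ((C α + C γ * X) ^ 0 * (C β + C δ * X) ^ 12) := by
  unfold PZ FF c2 c3 c4 c5 c6 c7 c8 c9 c10 c11 c12
  simp only [C_add, C_sub, C_mul, C_pow, C_neg, map_ofNat, pow_zero, pow_one, mul_one, one_mul]

theorem natDegree_PZ (w M r s α β γ δ : ℤ) : (PZ w M r s α β γ δ).natDegree ≤ 12 := by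
  rw [PZ_eq]
  refine natDegree_add_le_of_degree_le ?_ (mon_le _ _ _ _ _ 0 12)
  refine natDegree_add_le_of_degree_le ?_ (mon_le _ _ _ _ _ 1 11)
  refine natDegree_add_le_of_degree_le ?_ (mon_le _ _ _ _ _ 2 10)
  refine natDegree_add_le_of_degree_le ?_ (mon_le _ _ _ _ _ 3 9)
  refine natDegree_add_le_of_degree_le ?_ (mon_le _ _ _ _ _ 4 8)
  refine natDegree_add_le_of_degree_le ?_ (mon_le _ _ _ _ _ 5 7)
  refine natDegree_add_le_of_degree_le ?_ (mon_le _ _ _ _ _ 6 6)
  refine natDegree_add_le_of_degree_le ?_ (mon_le _ _ _ _ _ 7 5)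
  refine natDegree_add_le_of_degree_le ?_ (mon_le _ _ _ _ _ 8 4)
  refine natDegree_add_le_of_degree_le ?_ (mon_le _ _ _ _ _ 9 3)
  refine natDegree_add_le_of_degree_le ?_ (mon_le _ _ _ _ _ 10 2)
  exact natDegree_add_le_of_degree_le (mon_le _ _ _ _ _ 12 0) (mon_le _ _ _ _ _ 11 1)

theorem coeff_PZ (w M r s α β γ δ : ℤ) :
    (PZ w M r s α β γ δ).coeff 12 = FF w M r s γ δ := by
  have hk : ∀ (e : ℤ) (n m : ℕ), n + m = 12 →
      (C e * ((C α + C γ * X) ^ n * (C β + C δ * X) ^ m) : ℤ[X]).coeff 12 =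
        e * (γ ^ n * δ ^ m) := by
    intro e n m h
    rw [← h]
    exact mon_coeff _ _ _ _ _ _ _
  rw [PZ_eq]
  simp only [coeff_add]
  rw [hk _ 12 0 rfl, hk _ 11 1 rfl, hk _ 10 2 rfl, hk _ 9 3 rfl, hk _ 8 4 rfl, hk _ 7 5 rfl,
    hk _ 6 6 rfl, hk _ 5 7 rfl, hk _ 4 8 rfl, hk _ 3 9 rfl, hk _ 2 10 rfl, hk _ 1 11 rfl,
    hk _ 0 12 rfl]
  unfold FF
  ring

theorem fv_PZ (w M r s α β γ δ a b : ℤ) :
    fv 12 (PZ w M r s α β γ δ) a b = FF w M r s (α * b + γ * a) (β * b + δ * a) := by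
  by_cases hb : b = 0
  · rw [hb, fv_zero, coeff_PZ, mul_zero, mul_zero, zero_add, zero_add, mul_comm γ a, mul_comm δ a,
      FF_hom, mul_comm]
  · have hb' : (b : ℚ) ≠ 0 := by exact_mod_cast hb
    have h : ((fv 12 (PZ w M r s α β γ δ) a b : ℤ) : ℚ) =
        ((FF w M r s (α * b + γ * a) (β * b + δ * a) : ℤ) : ℚ) := by
      rw [fvq (natDegree_PZ w M r s α β γ δ) hb, aeval_PZ, ← FF_hom]
      have := FF_map (Int.castRingHom ℚ) w M r s (α * b + γ * a) (β * b + δ * a)
      simp only [eq_intCast] at this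
      rw [this]
      congr 1
      · push_cast
        field_simp
      · push_cast
        field_simp
    exact_mod_cast h

/-- a polynomial which is the Klein form along a line -/
theorem of_line {K : Type*} [Field K] [CharZero K] (P : ℤ[X]) (p1 q1 p2 q2 : K)
    (h : ∀ n : ℕ, aeval (n : K) P = ff (p1 + n * p2) (q1 + n * q2)) (z : K) :
    aeval z P = ff (p1 + z * p2) (q1 + z * q2) ∧
    aeval z (derivative P) =
      p2 * fu (p1 + z * p2) (q1 + z * q2) + q2 * fw (p1 + z * p2) (q1 + z * q2) := by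
  have hQ : P.map (algebraMap ℤ K) = ff (C p1 + X * C p2) (C q1 + X * C q2) := by
    apply eq_of_infinite_eval_eq
    apply Set.infinite_of_injective_forall_mem (f := fun n : ℕ => (n : K)) Nat.cast_injective
    intro n
    have h1 := h n
    have h2 := ff_map (evalRingHom (n : K)) (C p1 + X * C p2) (C q1 + X * C q2)
    rw [coe_evalRingHom] at h2
    show eval (n : K) _ = eval (n : K) _
    rw [h2, eval_map_algebraMap, h1]
    simp only [eval_add, eval_mul, eval_C, eval_X]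
  constructor
  · have h2 := ff_map (evalRingHom z) (C p1 + X * C p2) (C q1 + X * C q2)
    rw [coe_evalRingHom, ← hQ, eval_map_algebraMap] at h2
    rw [h2]
    simp only [eval_add, eval_mul, eval_C, eval_X]
  · rw [← eval_map_algebraMap, ← derivative_map, hQ]
    unfold ff fu fw
    simp only [derivative_add, derivative_sub, derivative_mul, derivative_pow, derivative_C,
      derivative_X, eval_add, eval_sub, eval_mul, eval_pow, eval_C, eval_X, derivative_ofNat,
      eval_ofNat, eval_zero, eval_one]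
    push_cast
    ring

/-- such a polynomial is squarefree -/
theorem sqf_of_line (P : ℤ[X]) (p1 q1 p2 q2 : ℂ) (hd : p1 * q2 - q1 * p2 ≠ 0)
    (h : ∀ n : ℕ, aeval (n : ℂ) P = ff (p1 + n * p2) (q1 + n * q2)) :
    Squarefree (P.map (Int.castRingHom ℚ)) := by
  apply Separable.squarefree
  rw [separable_def, isCoprime_iff_aeval_ne_zero_of_isAlgClosed ℚ ℂ]
  intro z
  by_contra hcon
  push Not at hcon
  obtain ⟨h1, h2⟩ := hcon
  obtain ⟨e1, e2⟩ := of_line P p1 q1 p2 q2 h z
  have k1 : aeval z (P.map (Int.castRingHom ℚ)) = aeval z P := by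
    have := aeval_map_algebraMap ℚ z P
    simpa using this
  have k2 : aeval z (derivative (P.map (Int.castRingHom ℚ))) = aeval z (derivative P) := by
    have := aeval_map_algebraMap ℚ z (derivative P)
    rw [derivative_map]
    simpa using this
  rw [k1, e1] at h1
  rw [k2, e2] at h2
  refine nonsing' (p2 := p2) (q2 := q2) ?_ h1 h2
  have : (p1 + z * p2) * q2 - (q1 + z * q2) * p2 = p1 * q2 - q1 * p2 := by ring
  rw [this]; exact hd

/-- finiteness -/
theorem finite_polys (B : ℝ) :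
    {P : ℤ[X] | P.natDegree ≤ 12 ∧ ∀ j ∈ Finset.range 13, |((P.eval (j : ℤ) : ℤ) : ℝ)| ≤ B}.Finite := by
  set N : ℤ := ⌈B⌉ with hN
  have hfin : (Set.pi Set.univ (fun _ : Fin 13 => Set.Icc (-N) N)).Finite :=
    Set.Finite.pi fun _ => Set.finite_Icc _ _
  refine Set.Finite.of_finite_image (f := fun P : ℤ[X] => fun j : Fin 13 => P.eval ((j : ℕ) : ℤ))
    (hfin.subset ?_) ?_
  · rintro _ ⟨P, ⟨-, hP⟩, rfl⟩
    rw [Set.mem_univ_pi]
    intro j
    have h1 := hP j (Finset.mem_range.2 j.2)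
    rw [abs_le] at h1
    have hc := Int.le_ceil B
    constructor
    · have : (-(N : ℝ)) ≤ ((P.eval ((j : ℕ) : ℤ) : ℤ) : ℝ) := by rw [hN]; linarith
      exact_mod_cast this
    · have : ((P.eval ((j : ℕ) : ℤ) : ℤ) : ℝ) ≤ N := by rw [hN]; linarith
      exact_mod_cast this
  · intro P hP P' hP' he
    have hinj : Function.Injective (Int.castRingHom ℚ) := Int.cast_injective
    rw [← sub_eq_zero]
    apply eq_zero_of_natDegree_lt_card_of_eval_eq_zero' _
      ((Finset.range 13).map ⟨fun n : ℕ => (n : ℤ), Nat.cast_injective⟩)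
    · intro i hi
      rw [Finset.mem_map] at hi
      obtain ⟨j, hj, rfl⟩ := hi
      have := congrFun he ⟨j, Finset.mem_range.1 hj⟩
      simp only at this
      rw [eval_sub, sub_eq_zero]
      exact this
    · rw [Finset.card_map, Finset.card_range]
      exact lt_of_le_of_lt (natDegree_sub_le_of_le hP.1 hP'.1) (by norm_num)

end Pool.Agent.H13.IC
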