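import Mathlib
import Pool.Agent.H13.IC.Forms

/-!
Every real point of the surface `T² + H³ = 1728 f⁵` with `f ≠ 0` is the image of a real point of the
plane.
-/

set_option autoImplicit false
set_option maxHeartbeats 4000000

namespace Pool.Agent.H13.IC

theorem sqrt5 : 2.236067 < √(5 : ℝ) ∧ √(5 : ℝ) < 2.236069 ∧ √(5 : ℝ) ^ 2 = 5 := by
  refine ⟨?_, ?_, Real.sq_sqrt (by norm_num)⟩
  · rw [Real.lt_sqrt (by norm_num)]; norm_num
  · rw [Real.sqrt_lt' (by norm_num)]; norm_num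

theorem pow5_of {z : ℝ} (h : z ^ 2 = 1 - z) : z ^ 5 = 5 * z - 3 := by
  have e4 : z ^ 4 = 2 - 3 * z := by
    have : z ^ 4 = (z ^ 2) ^ 2 := by ring
    rw [this, h]; linear_combination h
  have : z ^ 5 = z ^ 4 * z := by ring
  rw [this, e4]; linear_combination -3 * h

theorem f_end {z : ℝ} (h : z ^ 2 = 1 - z) : ff z 1 = 0 := by
  have h5 := pow5_of h
  have e : ff z 1 = z * ((z ^ 5) ^ 2 + 11 * z ^ 5 - 1) := by unfold ff; ring
  rw [e, h5]
  linear_combination 25 * z * h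

theorem T_end {z : ℝ} (h : z ^ 2 = 1 - z) : TT z 1 = 106562500 * z - 65859375 := by
  have h5 := pow5_of h
  set A := z ^ 5 with hA
  have hA2 : A ^ 2 = 1 - 11 * A := by rw [h5]; linear_combination 25 * h
  have hA3 : A ^ 3 = 122 * A - 11 := by linear_combination (A - 11) * hA2
  have hA4 : A ^ 4 = 122 - 1353 * A := by linear_combination A * hA3 + 122 * hA2
  have hA5 : A ^ 5 = 15005 * A - 1353 := by linear_combination A * hA4 - 1353 * hA2
  have hA6 : A ^ 6 = 15005 - 166408 * A := by linear_combination A * hA5 + 15005 * hA2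
  have e : TT z 1 = (A ^ 6 + 1) + 522 * (A ^ 5 - A) - 10005 * (A ^ 4 + A ^ 2) := by
    unfold TT; rw [hA]; ring
  rw [e, hA6, hA5, hA4, hA2, h5]
  ring

/-- the sign of `f` between the ends -/
theorem f_mid {z z1 z2 : ℝ} (h1 : z1 ^ 2 = 1 - z1) (hs : z1 + z2 = -1) (hl : z2 < z) (hr : z < z1) :
    (z ^ 5) ^ 2 + 11 * z ^ 5 - 1 < 0 := by
  have h2 : z2 ^ 2 = 1 - z2 := by
    have : z2 = -1 - z1 := by linarith
    rw [this]; linear_combination h1
  have e1 := pow5_of h1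
  have e2 := pow5_of h2
  have ho : Odd 5 := by decide
  have m1 : z ^ 5 < z1 ^ 5 := ho.strictMono_pow hr
  have m2 : z2 ^ 5 < z ^ 5 := ho.strictMono_pow hl
  have e3 : (z ^ 5) ^ 2 + 11 * z ^ 5 - 1 = (z ^ 5 - z1 ^ 5) * (z ^ 5 - z2 ^ 5) := by
    rw [e1, e2]
    have : z2 = -1 - z1 := by linarith
    rw [this]
    linear_combination 25 * h1
  rw [e3]
  exact mul_neg_of_neg_of_pos (by linarith) (by linarith)

/-- from a point on the line to a point of the plane -/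
theorem lift {z Z X0 Y0 : ℝ} (hsyz : Y0 ^ 2 + X0 ^ 3 = 1728 * Z ^ 5) (hf : ff z 1 ≠ 0)
    (hpos : 0 < Z / ff z 1) (hT : TT z 1 * √|Z| ^ 5 = Y0 * √|ff z 1| ^ 5) :
    ∃ u v : ℝ, ff u v = Z ∧ HH u v = X0 ∧ TT u v = Y0 := by
  set q := Z / ff z 1 with hq
  set μ : ℝ := q ^ ((1 : ℝ) / 12) with hμ
  have hμ0 : 0 < μ := Real.rpow_pos_of_pos hpos _
  have hμ12 : μ ^ 12 = q := by
    rw [hμ, ← Real.rpow_natCast, ← Real.rpow_mul hpos.le]
    norm_num
  have hμ30 : μ ^ 30 = √q ^ 5 := by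
    have h1 : 0 ≤ μ ^ 30 := by positivity
    have h2 : 0 ≤ √q ^ 5 := by positivity
    have h3 : (μ ^ 30) ^ 2 = (√q ^ 5) ^ 2 := by
      have e1 : (μ ^ 30) ^ 2 = (μ ^ 12) ^ 5 := by ring
      have e2 : (√q ^ 5) ^ 2 = (√q ^ 2) ^ 5 := by ring
      rw [e1, e2, hμ12, Real.sq_sqrt hpos.le]
    exact (pow_left_inj₀ h1 h2 (by norm_num)).1 h3
  have hff : ff (μ * z) (μ * 1) = Z := by
    rw [ff_hom, hμ12, hq]
    field_simp
  have hTT : TT (μ * z) (μ * 1) = Y0 := by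
    rw [TT_hom, hμ30]
    have e1 : |Z| = q * |ff z 1| := by
      have : Z = q * ff z 1 := by rw [hq]; field_simp
      conv_lhs => rw [this]
      rw [abs_mul, abs_of_pos hpos]
    have h3 : 0 < |ff z 1| := abs_pos.2 hf
    rw [e1, Real.sqrt_mul hpos.le, mul_pow] at hT
    have h4 : √|ff z 1| ^ 5 ≠ 0 := by
      have := Real.sqrt_pos.2 h3
      positivity
    apply mul_right_cancel₀ h4
    rw [← hT]; ring
  refine ⟨μ * z, μ * 1, hff, ?_, hTT⟩
  have h5 := syz (μ * z) (μ * 1)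
  rw [hff, hTT] at h5
  have h6 : HH (μ * z) (μ * 1) ^ 3 = X0 ^ 3 := by linarith
  have ho : Odd 3 := by decide
  exact ho.strictMono_pow.injective h6

theorem real_point {Z X0 Y0 : ℝ} (hZ : Z ≠ 0) (hsyz : Y0 ^ 2 + X0 ^ 3 = 1728 * Z ^ 5) :
    ∃ u v : ℝ, ff u v = Z ∧ HH u v = X0 ∧ TT u v = Y0 := by
  obtain ⟨hs1, hs2, hs⟩ := sqrt5
  set z1 : ℝ := (√5 - 1) / 2 with hz1
  set z2 : ℝ := -(√5 + 1) / 2 with hz2
  have h1 : z1 ^ 2 = 1 - z1 := by rw [hz1]; linear_combination hs / 4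
  have h2 : z2 ^ 2 = 1 - z2 := by rw [hz2]; linear_combination hs / 4
  have hsum : z1 + z2 = -1 := by rw [hz1, hz2]; ring
  have hz10 : 0 < z1 := by rw [hz1]; linarith
  have hz20 : z2 < 0 := by rw [hz2]; linarith
  have hT1 : TT z1 1 < 0 := by rw [T_end h1, hz1]; linarith
  have hT2 : TT z2 1 < 0 := by rw [T_end h2, hz2]; linarith
  have hT0 : TT (0 : ℝ) 1 = 1 := by unfold TT; norm_num
  have hf0 : ff (0 : ℝ) 1 = 0 := by unfold ff; norm_num
  have hf1 := f_end h1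
  have hf2 := f_end h2
  set ψ : ℝ → ℝ := fun z => TT z 1 * √|Z| ^ 5 - Y0 * √|ff z 1| ^ 5 with hψ
  have hcont : Continuous ψ := by
    rw [hψ]
    unfold TT ff
    fun_prop
  have hZ5 : 0 < √|Z| ^ 5 := pow_pos (Real.sqrt_pos.2 (abs_pos.2 hZ)) 5
  have v0 : 0 < ψ 0 := by
    simp only [hψ, hT0, hf0, abs_zero, Real.sqrt_zero]
    linarith [hZ5]
  have v1 : ψ z1 < 0 := by
    simp only [hψ, hf1, abs_zero, Real.sqrt_zero]
    nlinarith
  have v2 : ψ z2 < 0 := by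
    simp only [hψ, hf2, abs_zero, Real.sqrt_zero]
    nlinarith
  have hmain : ∃ z : ℝ, ψ z = 0 ∧ ff z 1 ≠ 0 ∧ 0 < Z / ff z 1 := by
    rcases lt_or_gt_of_ne hZ with hneg | hpos
    · -- the interval from `0` to `z1`
      have hm : (0 : ℝ) ∈ Set.Icc (ψ z1) (ψ 0) := ⟨v1.le, v0.le⟩
      obtain ⟨z, ⟨hz0, hz⟩, hzψ⟩ := intermediate_value_Icc' hz10.le hcont.continuousOn hm
      have hz0' : 0 < z := lt_of_le_of_ne hz0 (by rintro rfl; linarith)
      have hz' : z < z1 := lt_of_le_of_ne hz (by rintro rfl; linarith)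
      have h3 := f_mid h1 hsum (by linarith) hz'
      have hf : ff z 1 < 0 := by
        have e : ff z 1 = z * ((z ^ 5) ^ 2 + 11 * z ^ 5 - 1) := by unfold ff; ring
        rw [e]
        exact mul_neg_of_pos_of_neg hz0' h3
      exact ⟨z, hzψ, hf.ne, div_pos_of_neg_of_neg hneg hf⟩
    · have hm : (0 : ℝ) ∈ Set.Icc (ψ z2) (ψ 0) := ⟨v2.le, v0.le⟩
      obtain ⟨z, ⟨hz, hz0⟩, hzψ⟩ := intermediate_value_Icc hz20.le hcont.continuousOn hm
      have hz0' : z < 0 := lt_of_le_of_ne hz0 (by rintro rfl; linarith)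
      have hz' : z2 < z := lt_of_le_of_ne hz (by rintro rfl; linarith)
      have h3 := f_mid h1 hsum hz' (by linarith)
      have hf : 0 < ff z 1 := by
        have e : ff z 1 = z * ((z ^ 5) ^ 2 + 11 * z ^ 5 - 1) := by unfold ff; ring
        rw [e]
        exact mul_pos_of_neg_of_neg hz0' h3
      exact ⟨z, hzψ, hf.ne', div_pos hpos hf⟩
  obtain ⟨z, hz, hf, hp⟩ := hmain
  exact lift hsyz hf hp (by simp only [hψ] at hz; linarith)

end Pool.Agent.H13.IC
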