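import Mathlib
import Pool.Graph.R_seed8.H925R.Hall.Reduce

/-!
Reduction of a basis of the real plane.
-/

set_option autoImplicit false

namespace Pool.Agent.H13.IC

theorem red {u v b1 b2 : ℝ} (hd : 0 < u * b2 - v * b1) : ∃ α β γ δ : ℤ, α * δ - β * γ = 1 ∧
    (α * u + β * b1) ^ 2 + (α * v + β * b2) ^ 2 ≤ 2 * (u * b2 - v * b1) ∧
    ((α * u + β * b1) ^ 2 + (α * v + β * b2) ^ 2) * ((γ * u + δ * b1) ^ 2 + (γ * v + δ * b2) ^ 2) ≤
      2 * (u * b2 - v * b1) ^ 2 := by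
  set d := u * b2 - v * b1 with hdd
  have hn : 0 < u ^ 2 + v ^ 2 := by
    rcases eq_or_ne u 0 with hu | hu
    · rcases eq_or_ne v 0 with hv | hv
      · rw [hdd, hu, hv] at hd; simp at hd
      · positivity
    · positivity
  set n := u ^ 2 + v ^ 2 with hnn
  set Q := √(n / d) with hQ
  have hnd : 0 < n / d := div_pos hn hd
  have hQ0 : 0 < Q := Real.sqrt_pos.2 hnd
  have hQ2 : Q ^ 2 = n / d := Real.sq_sqrt hnd.le
  set s := -(u * b1 + v * b2) / n with hs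
  have key : ∀ p q : ℝ, (p * u + q * b1) ^ 2 + (p * v + q * b2) ^ 2 =
      d * ((Q * (p - q * s)) ^ 2 + (q / Q) ^ 2) := by
    intro p q
    have e1 : (Q * (p - q * s)) ^ 2 = n / d * (p - q * s) ^ 2 := by rw [mul_pow, hQ2]
    have e2 : (q / Q) ^ 2 = q ^ 2 * (d / n) := by rw [div_pow, hQ2]; field_simp
    rw [e1, e2, hs]
    have hn0 := hn.ne'
    have hd0 := hd.ne'
    field_simp
    rw [hnn, hdd]
    ring
  obtain ⟨p, q, p', q', T, hT0, hT, hdet, h1, h2⟩ := Pool.Agent.H925R.Hall.reduce1 s Q hQ0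
  refine ⟨p, q, p', q', by linarith, ?_, ?_⟩
  · rw [key p q]
    have hT1 : 1 / 2 ≤ T := by nlinarith
    have : (Q * ((p : ℝ) - q * s)) ^ 2 + (q / Q) ^ 2 ≤ 2 := by
      have h0 : 0 ≤ (Q * ((p : ℝ) - q * s)) ^ 2 + (q / Q) ^ 2 := by positivity
      nlinarith
    nlinarith
  · rw [key p q, key p' q']
    set N1 := (Q * ((p : ℝ) - q * s)) ^ 2 + (q / Q) ^ 2
    set N2 := (Q * ((p' : ℝ) - q' * s)) ^ 2 + (q' / Q) ^ 2
    have h0 : 0 ≤ N1 := by positivity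
    have h3 : N1 * N2 ≤ 4 / 3 := by
      calc N1 * N2 ≤ N1 * (4 / 3 * T) := mul_le_mul_of_nonneg_left h2 h0
        _ = 4 / 3 * (T * N1) := by ring
        _ = 4 / 3 := by rw [h1]; ring
    have : d * N1 * (d * N2) = d ^ 2 * (N1 * N2) := by ring
    rw [this]
    nlinarith [sq_nonneg d]

end Pool.Agent.H13.IC
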