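import Mathlib
import Pool.Agent.H13.IC.RealPt
import Pool.Agent.H13.IC.Red
import Pool.Agent.H13.IC.Poly

/-!
The solutions of `y² - x³ = D M⁵` with `D` bounded and `x`, `M` coprime are values of finitely many
integral forms of degree `12`.
-/

set_option autoImplicit false
set_option maxHeartbeats 4000000

namespace Pool.Agent.H13.IC

open Polynomial Pool.Agent.Y670.RD

theorem mono_le {p q N : ℝ} (hp : |p| ≤ N) (hq : |q| ≤ N) (i j : ℕ) :
    |p ^ i * q ^ j| ≤ N ^ (i + j) := by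
  have hN : 0 ≤ N := (abs_nonneg _).trans hp
  rw [abs_mul, abs_pow, abs_pow, pow_add]
  exact mul_le_mul (pow_le_pow_left₀ (abs_nonneg _) hp i) (pow_le_pow_left₀ (abs_nonneg _) hq j)
    (by positivity) (by positivity)

theorem ff_le {p q N : ℝ} (hp : |p| ≤ N) (hq : |q| ≤ N) : |ff p q| ≤ 13 * N ^ 12 := by
  have h1 := abs_le.1 (mono_le hp hq 11 1)
  have h2 := abs_le.1 (mono_le hp hq 6 6)
  have h3 := abs_le.1 (mono_le hp hq 1 11)
  norm_num at h1 h2 h3
  unfold ff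
  rw [abs_le]
  constructor <;> linarith [h1.1, h1.2, h2.1, h2.2, h3.1, h3.2]

theorem fu_le {p q N : ℝ} (hp : |p| ≤ N) (hq : |q| ≤ N) : |fu p q| ≤ 78 * N ^ 11 := by
  have h1 := abs_le.1 (mono_le hp hq 10 1)
  have h2 := abs_le.1 (mono_le hp hq 5 6)
  have h3 := abs_le.1 (mono_le hp hq 0 11)
  norm_num at h1 h2 h3
  unfold fu
  rw [abs_le]
  constructor <;> linarith [h1.1, h1.2, h2.1, h2.2, h3.1, h3.2]

theorem fw_le {p q N : ℝ} (hp : |p| ≤ N) (hq : |q| ≤ N) : |fw p q| ≤ 78 * N ^ 11 := by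
  have h1 := abs_le.1 (mono_le hp hq 11 0)
  have h2 := abs_le.1 (mono_le hp hq 6 5)
  have h3 := abs_le.1 (mono_le hp hq 1 10)
  norm_num at h1 h2 h3
  unfold fw
  rw [abs_le]
  constructor <;> linarith [h1.1, h1.2, h2.1, h2.2, h3.1, h3.2]

theorem HH_le {p q N : ℝ} (hp : |p| ≤ N) (hq : |q| ≤ N) : |HH p q| ≤ 1000 * N ^ 20 := by
  have hN : 0 ≤ N := (abs_nonneg _).trans hp
  have h1 := abs_le.1 (mono_le hp hq 20 0)
  have h2 := abs_le.1 (mono_le hp hq 0 20)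
  have h3 := abs_le.1 (mono_le hp hq 15 5)
  have h4 := abs_le.1 (mono_le hp hq 5 15)
  have h5 := abs_le.1 (mono_le hp hq 10 10)
  have h6 : 0 ≤ N ^ 20 := by positivity
  norm_num at h1 h2 h3 h4 h5
  unfold HH
  rw [abs_le]
  constructor <;> linarith [h1.1, h1.2, h2.1, h2.2, h3.1, h3.2, h4.1, h4.2, h5.1, h5.2]

theorem TT_le {p q N : ℝ} (hp : |p| ≤ N) (hq : |q| ≤ N) : |TT p q| ≤ 30000 * N ^ 30 := by
  have hN : 0 ≤ N := (abs_nonneg _).trans hp
  have h1 := abs_le.1 (mono_le hp hq 30 0)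
  have h2 := abs_le.1 (mono_le hp hq 0 30)
  have h3 := abs_le.1 (mono_le hp hq 25 5)
  have h4 := abs_le.1 (mono_le hp hq 5 25)
  have h5 := abs_le.1 (mono_le hp hq 20 10)
  have h7 := abs_le.1 (mono_le hp hq 10 20)
  have h6 : 0 ≤ N ^ 30 := by positivity
  norm_num at h1 h2 h3 h4 h5 h7
  unfold TT
  rw [abs_le]
  constructor <;>
    linarith [h1.1, h1.2, h2.1, h2.2, h3.1, h3.2, h4.1, h4.2, h5.1, h5.2, h7.1, h7.2]

/-- **the real plane of a solution** -/
theorem plane (B : ℝ) (hB : 1 ≤ B) {x y M D : ℤ} (hD : 0 < D) (hDB : (D : ℝ) ≤ B) (hM : M ≠ 0)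
    (hx : IsCoprime x M) (h : y ^ 2 - x ^ 3 = D * M ^ 5) :
    ∃ (w r s : ℤ) (u v b1 b2 : ℝ),
      (∀ X Y : ℝ, ff (u * X + b1 * Y) (v * X + b2 * Y) = FF (w : ℝ) M r s X Y) ∧
      0 < u * b2 - v * b1 ∧ u * b2 - v * b1 ≤ 1728 * B ∧
      |(x : ℝ)| ≤ B ^ 2 * |HH u v| ∧ |(y : ℝ)| ≤ B ^ 3 * |TT u v| := by
  obtain ⟨a, b, hab⟩ := (hx.pow_right : IsCoprime x (M ^ 5))
  -- the integer `w`
  set w : ℤ := a * y with hw
  set r : ℤ := x * b * (1 + a * x) - a ^ 2 * D with hr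
  set s : ℤ := y * (b * (1 + a * x + a ^ 2 * x ^ 2) - a ^ 3 * D) with hs
  have hxw : x = w ^ 2 + M ^ 5 * r := by
    rw [hw, hr]
    linear_combination (-a ^ 2) * h - x * (1 + a * x) * hab
  have hyw : y = w ^ 3 + M ^ 5 * s := by
    rw [hw, hs]
    linear_combination (-a ^ 3 * y) * h - y * (1 + a * x + a ^ 2 * x ^ 2) * hab
  have hD' : (0 : ℝ) < D := by exact_mod_cast hD
  have hD1 : (1 : ℝ) ≤ D := by exact_mod_cast hD
  have hM' : (M : ℝ) ≠ 0 := by exact_mod_cast hM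
  set ν : ℝ := (1728 / (D : ℝ)) ^ ((1 : ℝ) / 6) with hν
  have hνpos : 0 < 1728 / (D : ℝ) := by positivity
  have hν0 : 0 < ν := Real.rpow_pos_of_pos hνpos _
  have hν6 : ν ^ 6 = 1728 / (D : ℝ) := by
    rw [hν, ← Real.rpow_natCast, ← Real.rpow_mul hνpos.le]
    norm_num
  have hR : (y : ℝ) ^ 2 - (x : ℝ) ^ 3 = D * (M : ℝ) ^ 5 := by exact_mod_cast h
  have hsyz : (ν ^ 3 * y) ^ 2 + (-(ν ^ 2 * x)) ^ 3 = 1728 * (M : ℝ) ^ 5 := by
    have : (ν ^ 3 * y) ^ 2 + (-(ν ^ 2 * x)) ^ 3 = ν ^ 6 * ((y : ℝ) ^ 2 - (x : ℝ) ^ 3) := by ring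
    rw [this, hR, hν6]
    field_simp
  obtain ⟨u, v, h1, h2, h3⟩ := real_point hM' hsyz
  have hpar := param (x := (x : ℝ)) (y := (y : ℝ)) (w := (w : ℝ)) (r := (r : ℝ)) (s := (s : ℝ))
    hM' hν0.ne' h1 h2 h3 (by exact_mod_cast hxw) (by exact_mod_cast hyw)
  have hdet : u * ((w * v + fu u v / ν) / M) - v * ((w * u - fw u v / ν) / M) = 12 / ν := by
    have he := euler u v
    rw [h1] at he
    have : u * ((w * v + fu u v / ν) / M) - v * ((w * u - fw u v / ν) / M) =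
        (u * fu u v + v * fw u v) / (ν * M) := by
      field_simp
      ring
    rw [this, he]
    field_simp
  -- the size of `1 / ν`
  have hinv : 1 / ν ≤ B := by
    have e1 : (1 / ν) ^ 6 ≤ B ^ 6 := by
      rw [div_pow, one_pow, hν6]
      have e2 : 1 / (1728 / (D : ℝ)) = D / 1728 := by field_simp
      rw [e2]
      have e3 : B ≤ B ^ 6 := le_self_pow₀ hB (by norm_num)
      linarith
    exact le_of_pow_le_pow_left₀ (by norm_num) (by linarith) e1
  refine ⟨w, r, s, u, v, _, _, hpar, ?_, ?_, ?_, ?_⟩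
  · rw [hdet]; positivity
  · rw [hdet]
    have : 12 / ν = 12 * (1 / ν) := by ring
    rw [this]
    linarith
  · rw [h2, abs_neg, abs_mul, abs_of_pos (by positivity : 0 < ν ^ 2)]
    have e1 : (1 : ℝ) ≤ B ^ 2 * ν ^ 2 := by
      have e2 : 1 ≤ B * ν := by
        rw [div_le_iff₀ hν0] at hinv; linarith
      nlinarith
    calc |(x : ℝ)| = 1 * |(x : ℝ)| := (one_mul _).symm
      _ ≤ (B ^ 2 * ν ^ 2) * |(x : ℝ)| := mul_le_mul_of_nonneg_right e1 (abs_nonneg _)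
      _ = B ^ 2 * (ν ^ 2 * |(x : ℝ)|) := by ring
  · rw [h3, abs_mul, abs_of_pos (by positivity : 0 < ν ^ 3)]
    have e1 : (1 : ℝ) ≤ B ^ 3 * ν ^ 3 := by
      have e2 : 1 ≤ B * ν := by
        rw [div_le_iff₀ hν0] at hinv; linarith
      rw [← mul_pow]
      exact one_le_pow₀ e2
    calc |(y : ℝ)| = 1 * |(y : ℝ)| := (one_mul _).symm
      _ ≤ (B ^ 3 * ν ^ 3) * |(y : ℝ)| := mul_le_mul_of_nonneg_right e1 (abs_nonneg _)
      _ = B ^ 3 * (ν ^ 3 * |(y : ℝ)|) := by ring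

/-- there is a good shear -/
theorem shear {p1 q1 p2 q2 : ℝ} (hd : p1 * q2 - q1 * p2 ≠ 0) :
    ∃ j ∈ Finset.range 13, ff (p2 + j * p1) (q2 + j * q1) ≠ 0 := by
  by_contra hcon
  push Not at hcon
  set Q : ℝ[X] := ff (C p2 + X * C p1) (C q2 + X * C q1) with hQ
  have hdeg : Q.natDegree ≤ 12 := by
    have hl : ∀ a b : ℝ, (C a + X * C b : ℝ[X]).natDegree ≤ 1 := by
      intro a b; compute_degree
    have hm : ∀ (e : ℝ) (n m : ℕ), n + m = 12 →
        (C e * ((C p2 + X * C p1) ^ n * (C q2 + X * C q1) ^ m) : ℝ[X]).natDegree ≤ 12 := by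
      intro e n m hnm
      refine (natDegree_C_mul_le _ _).trans (natDegree_mul_le.trans ?_)
      have h1 : ((C p2 + X * C p1) ^ n : ℝ[X]).natDegree ≤ n :=
        natDegree_pow_le.trans (by have := hl p2 p1; nlinarith)
      have h2 : ((C q2 + X * C q1) ^ m : ℝ[X]).natDegree ≤ m :=
        natDegree_pow_le.trans (by have := hl q2 q1; nlinarith)
      omega
    have e : Q = C 1 * ((C p2 + X * C p1) ^ 11 * (C q2 + X * C q1) ^ 1) +
        C 11 * ((C p2 + X * C p1) ^ 6 * (C q2 + X * C q1) ^ 6) +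
        C (-1) * ((C p2 + X * C p1) ^ 1 * (C q2 + X * C q1) ^ 11) := by
      rw [hQ]; unfold ff
      simp only [map_ofNat, C_neg, C_1, pow_one]
      ring
    rw [e]
    refine natDegree_add_le_of_degree_le ?_ (hm _ 1 11 rfl)
    exact natDegree_add_le_of_degree_le (hm _ 11 1 rfl) (hm _ 6 6 rfl)
  have hev : ∀ z : ℝ, eval z Q = ff (p2 + z * p1) (q2 + z * q1) := by
    intro z
    have h2 := ff_map (evalRingHom z) (C p2 + X * C p1) (C q2 + X * C q1)
    rw [coe_evalRingHom] at h2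
    rw [hQ, h2]
    simp only [eval_add, eval_mul, eval_C, eval_X]
  have hQ0 : Q = 0 := by
    apply eq_zero_of_natDegree_lt_card_of_eval_eq_zero' _
      ((Finset.range 13).map ⟨fun n : ℕ => (n : ℝ), Nat.cast_injective⟩)
    · intro i hi
      rw [Finset.mem_map] at hi
      obtain ⟨j, hj, rfl⟩ := hi
      rw [hev]
      exact hcon j hj
    · rw [Finset.card_map, Finset.card_range]
      omega
  have h0 : ff p2 q2 = 0 := by
    have := hev 0
    rw [hQ0] at this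
    simpa using this.symm
  have h1 : eval 0 (derivative Q) = p1 * fu p2 q2 + q1 * fw p2 q2 := by
    rw [hQ]
    unfold ff fu fw
    simp only [derivative_add, derivative_sub, derivative_mul, derivative_pow, derivative_C,
      derivative_X, eval_add, eval_sub, eval_mul, eval_pow, eval_C, eval_X, derivative_ofNat,
      eval_ofNat, eval_zero, eval_one]
    push_cast
    ring
  refine nonsing' (p1 := p2) (q1 := q2) (p2 := p1) (q2 := q1) ?_ h0 ?_
  · intro h2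
    apply hd
    linarith
  · rw [← h1, hQ0]
    simp

end Pool.Agent.H13.IC
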