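import Mathlib
import Pool.Agent.H13.IC.Core

/-!
The solutions of `y² - x³ = D M⁵` with `D` bounded and `x`, `M` coprime are values of finitely many
integral forms of degree `12`.
-/

set_option autoImplicit false
set_option maxHeartbeats 4000000

namespace Pool.Agent.H13.IC

open Polynomial Pool.Agent.Y670.RD

/-- reduction of the integral form of a plane -/
theorem reduce (K1 : ℝ) (hK1 : 1 ≤ K1) : ∃ (B' K4 : ℝ), 0 < K4 ∧
    ∀ (w M r s : ℤ) (u v b1 b2 : ℝ),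
      (∀ X Y : ℝ, ff (u * X + b1 * Y) (v * X + b2 * Y) = FF (w : ℝ) M r s X Y) →
      0 < u * b2 - v * b1 → u * b2 - v * b1 ≤ K1 →
      ∃ α β γ δ : ℤ, α * δ - β * γ = 1 ∧
        (PZ w M r s α β γ δ).natDegree = 12 ∧
        Squarefree ((PZ w M r s α β γ δ).map (Int.castRingHom ℚ)) ∧
        (∀ j ∈ Finset.range 13, |((eval (j : ℤ) (PZ w M r s α β γ δ) : ℤ) : ℝ)| ≤ B') ∧
        |u| ≤ K4 * max |(β : ℝ)| |(δ : ℝ)| ∧ |v| ≤ K4 * max |(β : ℝ)| |(δ : ℝ)| := by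
  set K2 : ℝ := 26 * K1 with hK2
  set c0 : ℝ := 1 / (13 + 156 * K2) with hc0
  have hK20 : 0 < K2 := by rw [hK2]; linarith
  have hc00 : 0 < c0 := by positivity
  have hc01 : c0 ≤ 1 := by
    rw [hc0, div_le_one (by positivity)]; linarith
  set K3 : ℝ := K2 / c0 with hK3
  have hK30 : 0 < K3 := by positivity
  refine ⟨13 * (2 * K1 + 12 * K3) ^ 12, 2 * K1 + K3, by positivity, ?_⟩
  intro w M r s u v b1 b2 hF hd hdK
  set d := u * b2 - v * b1 with hdd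
  obtain ⟨α, β, γ0, δ0, hdet0, hn1, hn12⟩ := red hd
  set P1 : ℝ := α * u + β * b1 with hP1
  set Q1 : ℝ := α * v + β * b2 with hQ1
  set P0 : ℝ := γ0 * u + δ0 * b1 with hP0
  set Q0 : ℝ := γ0 * v + δ0 * b2 with hQ0
  have hdet0' : (α : ℝ) * δ0 - β * γ0 = 1 := by exact_mod_cast hdet0
  have hdet1 : P1 * Q0 - Q1 * P0 = d := by
    rw [hP1, hQ1, hP0, hQ0, hdd]
    linear_combination (u * b2 - v * b1) * hdet0'
  obtain ⟨j, hj, hjf⟩ := shear (p1 := P1) (q1 := Q1) (p2 := P0) (q2 := Q0)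
    (by rw [hdet1]; exact hd.ne')
  have hj12 : (j : ℝ) ≤ 12 := by
    have := Finset.mem_range.1 hj
    exact_mod_cast (by omega : j ≤ 12)
  set γ : ℤ := γ0 + j * α with hγ
  set δ : ℤ := δ0 + j * β with hδ
  set P2 : ℝ := P0 + j * P1 with hP2
  set Q2 : ℝ := Q0 + j * Q1 with hQ2
  have hP2' : P2 = γ * u + δ * b1 := by rw [hP2, hγ, hδ, hP0, hP1]; push_cast; ring
  have hQ2' : Q2 = γ * v + δ * b2 := by rw [hQ2, hγ, hδ, hQ0, hQ1]; push_cast; ring
  have hdet : α * δ - β * γ = 1 := by rw [hγ, hδ]; linear_combination hdet0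
  have hdet' : (α : ℝ) * δ - β * γ = 1 := by exact_mod_cast hdet
  have hdet2 : P1 * Q2 - Q1 * P2 = d := by rw [hP2, hQ2]; linear_combination hdet1
  -- sizes
  set N1 := √(P1 ^ 2 + Q1 ^ 2) with hN1
  set N0 := √(P0 ^ 2 + Q0 ^ 2) with hN0
  have hN1n : 0 ≤ N1 := Real.sqrt_nonneg _
  have hN0n : 0 ≤ N0 := Real.sqrt_nonneg _
  have hN1s : N1 ^ 2 = P1 ^ 2 + Q1 ^ 2 := Real.sq_sqrt (by positivity)
  have hN0s : N0 ^ 2 = P0 ^ 2 + Q0 ^ 2 := Real.sq_sqrt (by positivity)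
  have hp1 : |P1| ≤ N1 := Real.abs_le_sqrt (le_add_of_nonneg_right (sq_nonneg _))
  have hq1 : |Q1| ≤ N1 := Real.abs_le_sqrt (le_add_of_nonneg_left (sq_nonneg _))
  have hp0 : |P0| ≤ N0 := Real.abs_le_sqrt (le_add_of_nonneg_right (sq_nonneg _))
  have hq0 : |Q0| ≤ N0 := Real.abs_le_sqrt (le_add_of_nonneg_left (sq_nonneg _))
  have hN1K : N1 ^ 2 ≤ 2 * K1 := by rw [hN1s]; linarith
  have hN1le : N1 ≤ 2 * K1 := by
    have h1 : 2 * K1 ≤ (2 * K1) ^ 2 := le_self_pow₀ (by linarith) (by norm_num)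
    exact le_of_pow_le_pow_left₀ (by norm_num) (by linarith) (hN1K.trans h1)
  have hN10 : N1 * N0 ≤ 2 * K1 := by
    have h1 : (N1 * N0) ^ 2 ≤ (2 * K1) ^ 2 := by
      rw [mul_pow, hN1s, hN0s]
      have h2 : d ^ 2 ≤ K1 ^ 2 := pow_le_pow_left₀ hd.le hdK 2
      have h3 : (2 * K1) ^ 2 = 4 * K1 ^ 2 := by ring
      rw [h3]
      have h4 := sq_nonneg K1
      rw [← hdd] at hn12
      linarith
    exact le_of_pow_le_pow_left₀ (by norm_num) (by linarith) h1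
  set N2 := N0 + 12 * N1 with hN2
  have hN2n : 0 ≤ N2 := by positivity
  have hjab : |(j : ℝ)| ≤ 12 := by rw [abs_of_nonneg (by positivity)]; exact hj12
  have hp2 : |P2| ≤ N2 := by
    rw [hP2, hN2]
    refine (abs_add_le _ _).trans (add_le_add hp0 ?_)
    rw [abs_mul]
    exact mul_le_mul hjab hp1 (abs_nonneg _) (by norm_num)
  have hq2 : |Q2| ≤ N2 := by
    rw [hQ2, hN2]
    refine (abs_add_le _ _).trans (add_le_add hq0 ?_)
    rw [abs_mul]
    exact mul_le_mul hjab hq1 (abs_nonneg _) (by norm_num)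
  have hN12 : N1 * N2 ≤ K2 := by
    have : N1 * N2 = N1 * N0 + 12 * N1 ^ 2 := by rw [hN2]; ring
    rw [this, hK2]
    linarith
  -- the polynomial
  set P := PZ w M r s α β γ δ with hP
  have hline : ∀ t : ℝ, aeval t P = ff (P1 + t * P2) (Q1 + t * Q2) := by
    intro t
    rw [hP, aeval_PZ, ← hF]
    congr 1
    · rw [hP2', hP1]; ring
    · rw [hQ2', hQ1]; ring
  have hlineC : ∀ n : ℕ, aeval (n : ℂ) P = ff ((P1 : ℂ) + n * P2) ((Q1 : ℂ) + n * Q2) := by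
    intro n
    have h1 := hline n
    have h2 : aeval (((n : ℝ) : ℝ) : ℂ) P = ((aeval (n : ℝ) P : ℝ) : ℂ) :=
      (aeval_algebraMap_apply ℂ (n : ℝ) P)
    have h3 := ff_map Complex.ofRealHom (P1 + n * P2) (Q1 + n * Q2)
    simp only [Complex.ofRealHom_eq_coe] at h3
    push_cast at h2 h3
    rw [h2, h1, h3]
  have hdC : (P1 : ℂ) * Q2 - (Q1 : ℂ) * P2 ≠ 0 := by
    have : (P1 : ℂ) * Q2 - (Q1 : ℂ) * P2 = ((P1 * Q2 - Q1 * P2 : ℝ) : ℂ) := by push_cast; ring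
    rw [this, hdet2]
    exact_mod_cast hd.ne'
  have hsq := sqf_of_line P P1 Q1 P2 Q2 hdC hlineC
  have hcoeff12 : P.coeff 12 ≠ 0 := by
    intro h0
    rw [hP, coeff_PZ] at h0
    apply hjf
    have h1 := hF γ δ
    have h2 := FF_map (Int.castRingHom ℝ) w M r s γ δ
    simp only [eq_intCast] at h2
    rw [← h2, h0] at h1
    have e1 : P2 = u * γ + b1 * δ := by rw [hP2']; ring
    have e2 : Q2 = v * γ + b2 * δ := by rw [hQ2']; ring
    rw [e1, e2, h1]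
    simp
  have hdeg : P.natDegree = 12 :=
    natDegree_eq_of_le_of_coeff_ne_zero (natDegree_PZ w M r s α β γ δ) hcoeff12
  -- lower bound for `N1`
  obtain ⟨-, hder⟩ := of_line P P1 Q1 P2 Q2 (fun n => hline n) 0
  have hc0' : ((P.coeff 0 : ℤ) : ℝ) = ff P1 Q1 := by
    have h1 := hline 0
    rw [zero_mul, add_zero, zero_mul, add_zero] at h1
    rw [← h1, ← coeff_zero_eq_aeval_zero']
    simp
  have hc1' : ((P.coeff 1 : ℤ) : ℝ) = P2 * fu P1 Q1 + Q2 * fw P1 Q1 := by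
    rw [zero_mul, add_zero, zero_mul, add_zero] at hder
    rw [← hder, ← coeff_zero_eq_aeval_zero', coeff_derivative]
    simp
  have hlow : c0 ≤ N1 := by
    by_contra hcon
    push Not at hcon
    have hN1lt : N1 ≤ 1 := by linarith
    have hb0 : |((P.coeff 0 : ℤ) : ℝ)| < 1 := by
      rw [hc0']
      refine (ff_le hp1 hq1).trans_lt ?_
      have h1 : N1 ^ 12 ≤ N1 := pow_le_of_le_one hN1n hN1lt (by norm_num)
      have h2 : 13 * c0 < 1 := by
        rw [hc0, mul_one_div, div_lt_one (by positivity)]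
        linarith
      linarith
    have hb1 : |((P.coeff 1 : ℤ) : ℝ)| < 1 := by
      rw [hc1']
      have h1 : |P2 * fu P1 Q1 + Q2 * fw P1 Q1| ≤ N2 * (78 * N1 ^ 11) + N2 * (78 * N1 ^ 11) := by
        refine (abs_add_le _ _).trans (add_le_add ?_ ?_)
        · rw [abs_mul]; exact mul_le_mul hp2 (fu_le hp1 hq1) (abs_nonneg _) hN2n
        · rw [abs_mul]; exact mul_le_mul hq2 (fw_le hp1 hq1) (abs_nonneg _) hN2n
      refine h1.trans_lt ?_
      have h2 : N2 * (78 * N1 ^ 11) + N2 * (78 * N1 ^ 11) = 156 * (N1 * N2) * N1 ^ 10 := by ring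
      rw [h2]
      have h3 : N1 ^ 10 ≤ N1 := pow_le_of_le_one hN1n hN1lt (by norm_num)
      have h4 : 156 * K2 * c0 < 1 := by
        rw [hc0, mul_one_div, div_lt_one (by positivity)]
        linarith
      have h5 : 0 ≤ N1 * N2 := by positivity
      calc 156 * (N1 * N2) * N1 ^ 10 ≤ 156 * K2 * N1 := by
            apply mul_le_mul (by linarith) h3 (by positivity) (by positivity)
        _ ≤ 156 * K2 * c0 := mul_le_mul_of_nonneg_left hcon.le (by positivity)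
        _ < 1 := h4
    have hz0 : P.coeff 0 = 0 := by
      have : |P.coeff 0| < 1 := by exact_mod_cast hb0
      exact Int.abs_lt_one_iff.1 this
    have hz1 : P.coeff 1 = 0 := by
      have : |P.coeff 1| < 1 := by exact_mod_cast hb1
      exact Int.abs_lt_one_iff.1 this
    rw [hz0, Int.cast_zero] at hc0'
    rw [hz1, Int.cast_zero] at hc1'
    refine nonsing' (p1 := P1) (q1 := Q1) (p2 := P2) (q2 := Q2) ?_ hc0'.symm hc1'.symm
    rw [hdet2]; exact hd.ne'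
  have hN2K : N2 ≤ K3 := by
    rw [hK3, le_div_iff₀ hc00]
    calc N2 * c0 ≤ N2 * N1 := mul_le_mul_of_nonneg_left hlow hN2n
      _ = N1 * N2 := mul_comm _ _
      _ ≤ K2 := hN12
  refine ⟨α, β, γ, δ, hdet, hdeg, hsq, ?_, ?_, ?_⟩
  · intro i hi
    have hi12 : |(i : ℝ)| ≤ 12 := by
      rw [abs_of_nonneg (by positivity)]
      have := Finset.mem_range.1 hi
      exact_mod_cast (by omega : i ≤ 12)
    have h1 : ((eval (i : ℤ) P : ℤ) : ℝ) = ff (P1 + i * P2) (Q1 + i * Q2) := by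
      rw [← hline i]
      have := aeval_algebraMap_apply ℝ (i : ℤ) P
      simpa using this.symm
    rw [h1]
    have hbd : ∀ p q : ℝ, |p| ≤ N1 → |q| ≤ N2 → |p + i * q| ≤ 2 * K1 + 12 * K3 := by
      intro p q hp hq
      refine (abs_add_le _ _).trans (add_le_add (hp.trans hN1le) ?_)
      rw [abs_mul]
      exact mul_le_mul hi12 (hq.trans hN2K) (abs_nonneg _) (by norm_num)
    exact ff_le (hbd _ _ hp1 hp2) (hbd _ _ hq1 hq2)
  · have h1 : u = δ * P1 - β * P2 := by rw [hP2', hP1]; linear_combination (-u) * hdet'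
    rw [h1]
    have h2 := le_max_left |(β : ℝ)| |(δ : ℝ)|
    have h3 := le_max_right |(β : ℝ)| |(δ : ℝ)|
    set Z := max |(β : ℝ)| |(δ : ℝ)|
    have hZ : 0 ≤ Z := (abs_nonneg _).trans h2
    refine (abs_sub _ _).trans ?_
    rw [abs_mul, abs_mul]
    have h4 : |(δ : ℝ)| * |P1| ≤ Z * (2 * K1) :=
      mul_le_mul h3 (hp1.trans hN1le) (abs_nonneg _) hZ
    have h5 : |(β : ℝ)| * |P2| ≤ Z * K3 := mul_le_mul h2 (hp2.trans hN2K) (abs_nonneg _) hZ
    linarith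
  · have h1 : v = δ * Q1 - β * Q2 := by rw [hQ2', hQ1]; linear_combination (-v) * hdet'
    rw [h1]
    have h2 := le_max_left |(β : ℝ)| |(δ : ℝ)|
    have h3 := le_max_right |(β : ℝ)| |(δ : ℝ)|
    set Z := max |(β : ℝ)| |(δ : ℝ)|
    have hZ : 0 ≤ Z := (abs_nonneg _).trans h2
    refine (abs_sub _ _).trans ?_
    rw [abs_mul, abs_mul]
    have h4 : |(δ : ℝ)| * |Q1| ≤ Z * (2 * K1) :=
      mul_le_mul h3 (hq1.trans hN1le) (abs_nonneg _) hZ
    have h5 : |(β : ℝ)| * |Q2| ≤ Z * K3 := mul_le_mul h2 (hq2.trans hN2K) (abs_nonneg _) hZ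
    linarith

/-- **finitely many forms** -/
theorem forms (B : ℝ) (hB : 1 ≤ B) : ∃ (S : Set ℤ[X]) (K : ℝ), S.Finite ∧ 0 < K ∧
    (∀ P ∈ S, P.natDegree = 12 ∧ Squarefree (P.map (Int.castRingHom ℚ))) ∧
    ∀ x y M D : ℤ, 0 < D → (D : ℝ) ≤ B → M ≠ 0 → IsCoprime x M → y ^ 2 - x ^ 3 = D * M ^ 5 →
      ∃ P ∈ S, ∃ a b : ℤ, IsCoprime a b ∧ fv 12 P a b = M ∧
        |(x : ℝ)| ≤ K * (max |(a : ℝ)| |(b : ℝ)|) ^ 20 ∧
        |(y : ℝ)| ≤ K * (max |(a : ℝ)| |(b : ℝ)|) ^ 30 := by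
  obtain ⟨B', K4, hK4, hred⟩ := reduce (1728 * B) (by linarith)
  set K : ℝ := B ^ 2 * (1000 * K4 ^ 20) + B ^ 3 * (30000 * K4 ^ 30) with hK
  have hK0 : 0 < K := by positivity
  refine ⟨{P : ℤ[X] | (P.natDegree ≤ 12 ∧
    ∀ j ∈ Finset.range 13, |((P.eval (j : ℤ) : ℤ) : ℝ)| ≤ B') ∧ P.natDegree = 12 ∧
      Squarefree (P.map (Int.castRingHom ℚ))}, K,
    (finite_polys B').subset (fun P hP => hP.1), hK0, fun P hP => hP.2, ?_⟩
  intro x y M D hD hDB hM hx h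
  obtain ⟨w, r, s, u, v, b1, b2, hF, hd, hdK, hxb, hyb⟩ := plane B hB hD hDB hM hx h
  obtain ⟨α, β, γ, δ, hdet, hdeg, hsq, hev, hu, hv⟩ := hred w M r s u v b1 b2 hF hd hdK
  refine ⟨PZ w M r s α β γ δ, ⟨⟨hdeg.le, hev⟩, hdeg, hsq⟩, -β, δ, ?_, ?_, ?_, ?_⟩
  · exact ⟨γ, α, by linear_combination hdet⟩
  · rw [fv_PZ]
    have e1 : α * δ + γ * -β = 1 := by linear_combination hdet
    have e2 : β * δ + δ * -β = 0 := by ring
    rw [e1, e2]
    unfold FF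
    ring
  · have e1 : max |((-β : ℤ) : ℝ)| |(δ : ℝ)| = max |(β : ℝ)| |(δ : ℝ)| := by
      push_cast; rw [abs_neg]
    rw [e1]
    set Z := max |(β : ℝ)| |(δ : ℝ)| with hZ
    have hZ0 : 0 ≤ Z := le_max_of_le_left (abs_nonneg _)
    refine hxb.trans ?_
    have h1 := HH_le hu hv
    have h2 : B ^ 2 * |HH u v| ≤ B ^ 2 * (1000 * (K4 * Z) ^ 20) :=
      mul_le_mul_of_nonneg_left h1 (by positivity)
    refine h2.trans ?_
    rw [mul_pow]
    have h3 : B ^ 2 * (1000 * K4 ^ 20) ≤ K := by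
      rw [hK]
      have : 0 ≤ B ^ 3 * (30000 * K4 ^ 30) := by positivity
      linarith
    have h4 : 0 ≤ Z ^ 20 := by positivity
    calc B ^ 2 * (1000 * (K4 ^ 20 * Z ^ 20)) = B ^ 2 * (1000 * K4 ^ 20) * Z ^ 20 := by ring
      _ ≤ K * Z ^ 20 := mul_le_mul_of_nonneg_right h3 h4
  · have e1 : max |((-β : ℤ) : ℝ)| |(δ : ℝ)| = max |(β : ℝ)| |(δ : ℝ)| := by
      push_cast; rw [abs_neg]
    rw [e1]
    set Z := max |(β : ℝ)| |(δ : ℝ)| with hZ
    have hZ0 : 0 ≤ Z := le_max_of_le_left (abs_nonneg _)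
    refine hyb.trans ?_
    have h1 := TT_le hu hv
    have h2 : B ^ 3 * |TT u v| ≤ B ^ 3 * (30000 * (K4 * Z) ^ 30) :=
      mul_le_mul_of_nonneg_left h1 (by positivity)
    refine h2.trans ?_
    rw [mul_pow]
    have h3 : B ^ 3 * (30000 * K4 ^ 30) ≤ K := by
      rw [hK]
      have : 0 ≤ B ^ 2 * (1000 * K4 ^ 20) := by positivity
      linarith
    have h4 : 0 ≤ Z ^ 30 := by positivity
    calc B ^ 3 * (30000 * (K4 ^ 30 * Z ^ 30)) = B ^ 3 * (30000 * K4 ^ 30) * Z ^ 30 := by ring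
      _ ≤ K * Z ^ 30 := mul_le_mul_of_nonneg_right h3 h4

end Pool.Agent.H13.IC
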