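import Mathlib
import Pool.Agent.H13.IC.Fin
import Pool.Graph.R_pool_sql_team_seeded_3dad9d7b.NH26.HC.Main

/-!
`y² - x³ = u m⁵` with `u` a product of given primes.
-/

set_option autoImplicit false
set_option maxHeartbeats 4000000

namespace Pool.Agent.H13.IC

open Polynomial Finset Pool.Agent.Y670.RD Pool.Agent.NH26.HC

theorem tp_neg (T : Finset ℕ) (M : ℤ) : tp T (-M) = tp T M := by
  unfold tp
  push_cast
  rw [abs_neg]
  congr 1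
  refine prod_congr rfl fun p _ => ?_
  rw [padicNorm.neg]

/-- **the case of fifth powers, `D > 0`** -/
theorem core5_pos (T : Finset ℕ) (hT : ∀ p ∈ T, p.Prime) (ε : ℝ) (hε : 0 < ε) (hε1 : ε ≤ 1)
    (B : ℝ) (hB : 1 ≤ B) :
    ∃ κ : ℝ, 0 < κ ∧ ∀ x y M D : ℤ, 0 < D → (D : ℝ) ≤ B → M ≠ 0 → IsCoprime x M →
      y ^ 2 - x ^ 3 = D * M ^ 5 →
      κ * (max (|(x : ℝ)| ^ 3) ((y : ℝ) ^ 2)) ^ ((1 - ε) / 6) ≤ tp T M := by
  obtain ⟨S, K, hS, hK, hSP, hrep⟩ := forms B hB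
  obtain ⟨κ, hκ, hb⟩ := unif hS (fun κ P => ∀ a b : ℤ, IsCoprime a b → fv 12 P a b ≠ 0 →
      κ * (max |(a : ℝ)| |(b : ℝ)|) ^ (10 - 10 * ε) ≤ tp T (fv 12 P a b))
    (by
      intro c c' P hc' hcc h a b hab hne
      refine le_trans ?_ (h a b hab hne)
      exact mul_le_mul_of_nonneg_right hcc (Real.rpow_nonneg (le_max_of_le_left (abs_nonneg _)) _))
    (by
      intro P hP
      obtain ⟨hdeg, hsq⟩ := hSP P hP
      obtain ⟨c, hc, h⟩ := rid_form' P hsq (by omega) T hT (10 * ε) (by positivity)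
      refine ⟨c, hc, fun a b hab hne => ?_⟩
      rw [hdeg] at h
      have := h a b hab hne
      have e1 : ((12 : ℕ) : ℝ) - 2 - 10 * ε = 10 - 10 * ε := by norm_num
      rw [e1] at this
      exact this)
  set C : ℝ := K ^ 3 + K ^ 2 with hC
  have hC0 : 0 < C := by positivity
  refine ⟨κ * (C ^ ((1 - ε) / 6))⁻¹, by positivity, ?_⟩
  intro x y M D hD hDB hM hxM h
  obtain ⟨P, hP, a, b, hab, hfv, hx, hy⟩ := hrep x y M D hD hDB hM hxM h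
  have h1 := hb P hP a b hab (by rw [hfv]; exact hM)
  rw [hfv] at h1
  set Z := max |(a : ℝ)| |(b : ℝ)| with hZ
  have hZ0 : 0 ≤ Z := le_max_of_le_left (abs_nonneg _)
  have hx3 : |(x : ℝ)| ^ 3 ≤ C * Z ^ 60 := by
    have h2 := pow_le_pow_left₀ (abs_nonneg _) hx 3
    have h3 : (K * Z ^ 20) ^ 3 = K ^ 3 * Z ^ 60 := by ring
    rw [h3] at h2
    refine h2.trans ?_
    have h4 : 0 ≤ Z ^ 60 := by positivity
    have h5 : 0 ≤ K ^ 2 * Z ^ 60 := by positivity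
    rw [hC, add_mul]
    linarith
  have hy2 : (y : ℝ) ^ 2 ≤ C * Z ^ 60 := by
    have h2 := pow_le_pow_left₀ (abs_nonneg _) hy 2
    have h3 : (K * Z ^ 30) ^ 2 = K ^ 2 * Z ^ 60 := by ring
    rw [h3, sq_abs] at h2
    refine h2.trans ?_
    have h5 : 0 ≤ K ^ 3 * Z ^ 60 := by positivity
    rw [hC, add_mul]
    linarith
  have h6 := powN (e := 10 * (1 - ε)) 60 (by norm_num) (by positivity) hC0 hZ0 (by linarith) hx3 hy2
  have e6 : 10 * (1 - ε) / ((60 : ℕ) : ℝ) = (1 - ε) / 6 := by push_cast; ring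
  have e7 : 10 * (1 - ε) = 10 - 10 * ε := by ring
  rw [e6, e7] at h6
  calc κ * (C ^ ((1 - ε) / 6))⁻¹ * (max (|(x : ℝ)| ^ 3) ((y : ℝ) ^ 2)) ^ ((1 - ε) / 6)
      ≤ κ * (C ^ ((1 - ε) / 6))⁻¹ * (C ^ ((1 - ε) / 6) * Z ^ (10 - 10 * ε)) :=
        mul_le_mul_of_nonneg_left h6 (by positivity)
    _ = κ * Z ^ (10 - 10 * ε) := by
        have : C ^ ((1 - ε) / 6) ≠ 0 := by positivity
        field_simp
    _ ≤ tp T M := h1

/-- **the case of fifth powers** -/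
theorem core5 (T : Finset ℕ) (hT : ∀ p ∈ T, p.Prime) (ε : ℝ) (hε : 0 < ε) (hε1 : ε ≤ 1)
    (B : ℝ) :
    ∃ κ : ℝ, 0 < κ ∧ ∀ x y M D : ℤ, D ≠ 0 → |(D : ℝ)| ≤ B → M ≠ 0 → IsCoprime x M →
      y ^ 2 - x ^ 3 = D * M ^ 5 →
      κ * (max (|(x : ℝ)| ^ 3) ((y : ℝ) ^ 2)) ^ ((1 - ε) / 6) ≤ tp T M := by
  obtain ⟨κ, hκ, hb⟩ := core5_pos T hT ε hε hε1 (max B 1) (le_max_right _ _)
  refine ⟨κ, hκ, fun x y M D hD hDB hM hxM h => ?_⟩
  rcases lt_or_gt_of_ne hD with hneg | hpos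
  · rw [← tp_neg]
    refine hb x y (-M) (-D) (by omega) ?_ (neg_ne_zero.2 hM) hxM.neg_right (by rw [h]; ring)
    push_cast
    exact ((neg_le_abs _).trans hDB).trans (le_max_left _ _)
  · exact hb x y M D hpos (((le_abs_self _).trans hDB).trans (le_max_left _ _)) hM hxM h

/-- **minimal pairs** -/
theorem main5 (T : Finset ℕ) (hT : ∀ p ∈ T, p.Prime) (ε : ℝ)
    (hε : 0 < ε) (hε1 : ε ≤ 1) :
    ∃ κ : ℝ, 0 < κ ∧ ∀ x y u m : ℤ, u ≠ 0 → m ≠ 0 → TU T u → (∀ p ∈ T, ¬ (p : ℤ) ∣ m) →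
      (∀ p : ℕ, p.Prime → (p : ℤ) ∣ x → (p : ℤ) ∣ y → p ∈ T) →
      (∀ p : ℕ, p.Prime → ¬ ((p : ℤ) ^ 2 ∣ x ∧ (p : ℤ) ^ 3 ∣ y)) →
      y ^ 2 - x ^ 3 = u * m ^ 5 →
      κ * (max (|(x : ℝ)| ^ 3) ((y : ℝ) ^ 2)) ^ ((1 - ε) / 6) ≤ |(m : ℝ)| := by
  obtain ⟨κ, hκ, hb⟩ := core5 T hT ε hε hε1 ((((∏ p ∈ T, p : ℕ) : ℤ) ^ 4 : ℤ) : ℝ)
  refine ⟨κ, hκ, ?_⟩
  intro x y u m hu hm hTU hmT hgcd hmin h
  obtain ⟨D, t, e1, hD, ht, hTt, hDb, hlast⟩ :=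
    unit_split T hT 5 (by norm_num) (by norm_num) u hu hTU
  have h1 : y ^ 2 - x ^ 3 = D * (t * m) ^ 5 := by rw [h, e1]; ring
  have hc : IsCoprime x (t * m) := by
    apply coprime_of (mul_ne_zero ht hm)
    intro p hp hpx hptm
    have hpi := Nat.prime_iff_prime_int.1 hp
    have hpy : (p : ℤ) ∣ y := by
      have h2 : (p : ℤ) ∣ y ^ 2 := by
        have : y ^ 2 = x * x ^ 2 + D * (t * m) ^ 5 := by linear_combination h1
        rw [this]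
        exact dvd_add (hpx.mul_right _) ((hptm.trans (dvd_pow_self _ (by omega))).mul_left _)
      exact hpi.dvd_of_dvd_pow h2
    have hpT := hgcd p hp hpx hpy
    rcases hpi.dvd_or_dvd hptm with h3 | h3
    · have h4 := hlast p hp h3
      apply not_pow5 hp hpx hpy (hmin p hp)
      rw [h]
      exact h4.mul_right _
    · exact hmT p hpT h3
  have h2 := hb x y (t * m) D hD (by exact_mod_cast hDb) (mul_ne_zero ht hm) hc h1
  refine h2.trans ?_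
  rw [tp_mul T hT, tp_unit T hT t ht hTt, one_mul]
  exact tp_le T hT m

end Pool.Agent.H13.IC
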